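import Pool.Agent.Helper75_PFC.Cjl
import Pool.Agent.Helper39_AT6.LWD
import Pool.Agent.Helper74_PP.Brt

/-!
# Squad PFC, block B6: row FSN (helper75)

`y = x g⁻¹` commutes with `Q = g Q' g⁻¹`, `Q' = {v ∈ V | g v g⁻¹ ∈ V}`, and `y = j y (g j g⁻¹)`; the
Brauer map at `Q` gives `br_Q(y) = br_Q(j) br_Q(y) g br_{Q'}(j) g⁻¹ ≠ 0`, so the local block of `Q` and
the conjugate of the local block of `Q'` are equal.
-/

open scoped BigOperators

noncomputable section

namespace Pool.Agent.PFC.H75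

open Pool.Agent.Helper51_AWC Pool.Agent.Helper79_WRA Pool.Agent.PP Pool.Agent.PP.KF
open Pool.Agent.PP.K9 Pool.Agent.PP.K9.H97 Pool.Agent.PP.H75 Pool.Agent.PP.T3 Pool.Agent.PP.T2
open Pool.Agent.PP.T8 (Fr rs pw)

attribute [local instance] Ideal.Quotient.field

theorem fsn (hfuw : FuwStmt) : FsnStmt := by
  intro ℓ _ M _ hM G _ _ e V γ hL j hj g x hx1 hx2 hx3 hx4
  have hF : GoodF ℓ (FF M) := H50.fld ℓ Fact.out M hM
  have orb : PP.OrbStmt := H74.orb
  -- the subgroups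
  set Q' : Subgroup G := V ⊓ V.comap (MulAut.conj g).toMonoidHom with hQ'
  have hmQ' : ∀ v, v ∈ Q' ↔ v ∈ V ∧ g * v * g⁻¹ ∈ V := by
    intro v
    rw [hQ', Subgroup.mem_inf, Subgroup.mem_comap]
    rfl
  set Q : Subgroup G := Q'.map (MulAut.conj g).toMonoidHom with hQ
  have hmQ : ∀ v, v ∈ Q ↔ g⁻¹ * v * g ∈ Q' := by
    intro v
    rw [hQ, Subgroup.mem_map]
    constructor
    · rintro ⟨w, hw, hwv⟩
      change g * w * g⁻¹ = v at hwv
      rw [← hwv]
      have e : g⁻¹ * (g * w * g⁻¹) * g = w := by group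
      rw [e]
      exact hw
    · intro h
      refine ⟨_, h, ?_⟩
      change g * (g⁻¹ * v * g) * g⁻¹ = v
      group
  have hQV : Q ≤ V := by
    intro v hv
    have h1 := ((hmQ' _).1 ((hmQ v).1 hv)).2
    have e : g * (g⁻¹ * v * g) * g⁻¹ = v := by group
    rwa [e] at h1
  have hQ'V : Q' ≤ V := fun v hv => ((hmQ' v).1 hv).1
  have hPQ : IsPGroup ℓ Q := hL.tp.pg.to_le hQV
  -- the local blocks
  obtain ⟨f, hf⟩ := (T6.H39.lwd ℓ M hM G e V γ hL Q hQV).1
  obtain ⟨f', hf'⟩ := (T6.H39.lwd ℓ M hM G e V γ hL Q' hQ'V).1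
  -- y = x g⁻¹
  set y : G → FF M := fun h => x (h * g) with hy
  have hyx : y = mulF x (dl (FF M) g⁻¹) := by
    rw [mulF_dl_r, inv_inv]
  have hy1 : mulF j y = y := by
    rw [hyx, ← H20.mulF_assoc, hx1]
  have hy2 : mulF y (H75.cj g j) = y := by
    have h1 : mulF (dl (FF M) g⁻¹) (H75.cj g j) = mulF j (dl (FF M) g⁻¹) := by
      rw [dl_move, cj_inv_cj]
    rw [hyx, H20.mulF_assoc, h1, ← H20.mulF_assoc, hx2]
  -- invariance under Q
  have hyQ : ∀ q ∈ Q, H75.cj q y = y := by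
    intro q hq
    rw [cj_eq_iff]
    intro h
    change x (q * h * q⁻¹ * g) = x (h * g)
    set v := g⁻¹ * q * g with hv
    have hv1 := (hmQ' v).1 ((hmQ q).1 hq)
    have h1 := hx3 v hv1.1 hv1.2 (h * g)
    rw [← h1]
    congr 1
    rw [hv]
    group
  have hjQ : ∀ q ∈ Q, H75.cj q j = j := by
    intro q hq
    rw [cj_eq_iff]
    exact hj.iv q (hQV hq)
  have hjgQ : ∀ q ∈ Q, H75.cj q (H75.cj g j) = H75.cj g j := by
    intro q hq
    have h1 : H75.cj (g⁻¹ * q * g) j = j := by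
      rw [cj_eq_iff]
      exact hj.iv _ (hQ'V ((hmQ q).1 hq))
    have h2 : q * g = g * (g⁻¹ * q * g) := by group
    rw [cj_cj, h2, ← cj_cj, h1]
  have hyjQ : ∀ q ∈ Q, H75.cj q (mulF y (H75.cj g j)) = mulF y (H75.cj g j) := by
    intro q hq
    rw [cj_mulF, hyQ q hq, hjgQ q hq]
  set Y : G → FF M := br Q y with hY
  have hY1 : mulF (br Q j) Y = Y := by
    rw [hY, ← br_mulF orb hF hPQ hjQ hyQ, hy1]
  have hcj : br Q (H75.cj g j) = H75.cj g (br Q' j) := br_cj g hmQ j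
  have hY2 : mulF Y (H75.cj g (br Q' j)) = Y := by
    rw [hY, ← hcj, ← br_mulF orb hF hPQ hyQ hjgQ, hy2]
  have hY0 : Y ≠ 0 := by
    obtain ⟨h, hh1, hh2⟩ := hx4
    intro h0
    apply hh2
    have hk : h * g⁻¹ ∈ Subgroup.centralizer (Q : Set G) := by
      rw [Subgroup.mem_centralizer_iff]
      intro q hq
      set v := g⁻¹ * q * g with hv
      have hv1 := (hmQ' v).1 ((hmQ q).1 hq)
      have h1 := hh1 v hv1.1 hv1.2
      have h2 : g * v * g⁻¹ = q := by rw [hv]; group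
      rw [h2] at h1
      calc q * (h * g⁻¹) = q * h * g⁻¹ := by group
        _ = h * v * g⁻¹ := by rw [h1]
        _ = h * g⁻¹ * q := by rw [hv]; group
    have h3 : Y (h * g⁻¹) = y (h * g⁻¹) := br_in _ hk
    rw [h0] at h3
    change (0 : FF M) = x (h * g⁻¹ * g) at h3
    rw [inv_mul_cancel_right] at h3
    exact h3.symm
  -- the blocks
  set b : G → FF M := H75.cj g f' with hb
  have hbB : Bx (Subgroup.centralizer (Q : Set G)) b := Bx_cj hf'.blk g (mem_cent_conj g hmQ)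
  have hYs : ∀ z, z ∉ Subgroup.centralizer (Q : Set G) → Y z = 0 := fun z hz => br_out _ hz
  have hjs : ∀ z, z ∉ Subgroup.centralizer (Q : Set G) → br Q j z = 0 := fun z hz => br_out _ hz
  have hfY : mulF f Y = Y := by
    have h1 := hj.lb Q hQV f hf
    have h2 : mulF (br Q j) f = mulF f (br Q j) :=
      mulF_comm_of hjs (fun k hk => hf.blk.ix.inv hk)
    calc mulF f Y = mulF f (mulF (br Q j) Y) := by rw [hY1]
      _ = mulF (mulF (br Q j) f) Y := by rw [h2, H20.mulF_assoc]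
      _ = Y := by rw [h1, hY1]
  have hYb : mulF Y b = Y := by
    have h1 := congrArg (H75.cj g) (hj.lb Q' hQ'V f' hf')
    rw [cj_mulF] at h1
    calc mulF Y b = mulF (mulF Y (H75.cj g (br Q' j))) b := by rw [hY2]
      _ = mulF Y (mulF (H75.cj g (br Q' j)) b) := by rw [H20.mulF_assoc]
      _ = Y := by rw [hb, h1, hY2]
  have hbY : mulF b Y = Y := by
    rw [← mulF_comm_of hYs (fun k hk => hbB.ix.inv hk), hYb]
  have hfb : f = b := by
    rcases hf.blk.dich hbB with h | h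
    · exact h
    · exfalso
      apply hY0
      calc Y = mulF f (mulF b Y) := by rw [hbY, hfY]
        _ = mulF (mulF f b) Y := by rw [H20.mulF_assoc]
        _ = 0 := by rw [h, mulF_zero_left]
  obtain ⟨t, ht, ht2⟩ := hfuw ℓ M hM G e V γ hL Q Q' hQV hQ'V f f' hf hf' g (by
    intro z
    rw [hmQ]
    have e : g⁻¹ * (g * z * g⁻¹) * g = z := by group
    rw [e]) hfb.symm
  exact ⟨t, ht, fun v hv hgv => ht2 v ((hmQ' v).2 ⟨hv, hgv⟩)⟩

end Pool.Agent.PFC.H75
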