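import Pool.Agent.Helper75_PFC.Cjl

/-!
# Squad PFC, block B6: row JCJ (helper75)
-/

open scoped BigOperators

noncomputable section

namespace Pool.Agent.PFC.H75

open Pool.Agent.Helper51_AWC Pool.Agent.Helper79_WRA Pool.Agent.PP Pool.Agent.PP.KF
open Pool.Agent.PP.K9 Pool.Agent.PP.K9.H97 Pool.Agent.PP.H75 Pool.Agent.PP.T3 Pool.Agent.PP.T2
open Pool.Agent.PP.T8 (Fr rs pw)

attribute [local instance] Ideal.Quotient.field

/-- Transport of the local blocks under an element of the inertial group. -/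
theorem Lw_cj {F G : Type} [Field F] [Group G] [Finite G] {V : Subgroup G} {γ : G → F} {t : G}
    (ht : t ∈ Tg V γ) {W W' : Subgroup G} (h : ∀ x, x ∈ W ↔ t⁻¹ * x * t ∈ W') {f : G → F}
    (hf : T6.Lw V γ W' f) : T6.Lw V γ W (H75.cj t f) where
  blk := Bx_cj hf.blk t (mem_cent_conj t h)
  gam := by
    rw [br_cj t (norm_iff ht.1)]
    conv_lhs => rw [← cj_stabF ht.2]
    rw [← cj_mulF, hf.gam]
    exact cj_stabF ht.2

theorem jcj : JcjStmt := by
  intro ℓ _ M _ hM G _ _ e V γ hL j hj t ht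
  have ht' : t⁻¹ ∈ Tg V γ := (Tg V γ).inv_mem ht
  have hVt := norm_iff ht.1
  refine ⟨?_, ?_, ?_, ?_, ?_⟩
  · rw [← cj_mulF, hj.id]
  · intro v hv x
    change j (t⁻¹ * (v * x * v⁻¹) * t) = j (t⁻¹ * x * t)
    have h1 := hj.iv (t⁻¹ * v * t) ((hVt v).1 hv) (t⁻¹ * x * t)
    rw [← h1]
    congr 1
    group
  · intro W hW f hf
    -- the conjugate subgroup
    set W' : Subgroup G := W.map (MulAut.conj t⁻¹).toMonoidHom with hW'
    have hmem : ∀ x, x ∈ W ↔ t⁻¹ * x * t ∈ W' := by
      intro x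
      rw [hW', Subgroup.mem_map]
      constructor
      · intro hx
        exact ⟨x, hx, by
          change t⁻¹ * x * t⁻¹⁻¹ = _
          rw [inv_inv]⟩
      · rintro ⟨y, hy, hyx⟩
        change t⁻¹ * y * t⁻¹⁻¹ = _ at hyx
        rw [inv_inv] at hyx
        have : y = x := mul_left_cancel (mul_right_cancel hyx)
        rw [← this]
        exact hy
    have hmem' : ∀ x, x ∈ W' ↔ t⁻¹⁻¹ * x * t⁻¹ ∈ W := by
      intro x
      rw [hmem, inv_inv]
      have e : t⁻¹ * (t * x * t⁻¹) * t = x := by group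
      rw [e]
    have hW'V : W' ≤ V := by
      intro x hx
      have h1 := hW ((hmem' x).1 hx)
      rw [inv_inv] at h1
      have h2 := (hVt _).1 h1
      have e : t⁻¹ * (t * x * t⁻¹) * t = x := by group
      rw [e] at h2
      exact h2
    have hf' : T6.Lw V γ W' (H75.cj t⁻¹ f) := Lw_cj ht' hmem' hf
    have h1 := hj.lb W' hW'V _ hf'
    have h2 := congrArg (H75.cj t) h1
    rw [cj_mulF, cj_cj_inv, ← br_cj t hmem] at h2
    exact h2
  · intro κ hκ
    have hC : ∀ x, x ∈ Subgroup.centralizer (V : Set G) ↔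
        t⁻¹⁻¹ * x * t⁻¹ ∈ Subgroup.centralizer (V : Set G) :=
      mem_cent_conj t⁻¹ (norm_iff ht'.1)
    set φ : Subgroup.centralizer (V : Set G) ≃* Subgroup.centralizer (V : Set G) :=
      eX t⁻¹ hC with hφ
    have hφa : ∀ s, ((φ s : Subgroup.centralizer (V : Set G)) : G) = t * s * t⁻¹ := by
      intro s
      change t⁻¹⁻¹ * (s : G) * t⁻¹ = _
      rw [inv_inv]
    have hκ' : (fun s => κ (φ s)) ∈ IrrE M (fun s : Subgroup.centralizer (V : Set G) => γ s) := by
      have h1 := IrrE_equiv φ hL.gam.blk.1.1 hκ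
      have h2 : (fun x => (fun t : Subgroup.centralizer (V : Set G) => γ t) (φ x)) =
          fun s : Subgroup.centralizer (V : Set G) => γ s := by
        funext s
        change γ ((φ s : Subgroup.centralizer (V : Set G)) : G) = γ s
        rw [hφa]
        exact ht.2 s
      rw [h2] at h1
      exact h1
    have h3 := hj.nz _ hκ'
    intro h0
    apply h3
    rw [← h0]
    have h4 := finsum_comp_equiv φ.toEquiv
      (f := fun s : Subgroup.centralizer (V : Set G) => H75.cj t j s * rr M (κ s))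
    refine Eq.trans ?_ h4
    apply finsum_congr
    intro s
    change j s * rr M (κ (φ s)) = H75.cj t j ((φ s : Subgroup.centralizer (V : Set G)) : G) *
      rr M (κ (φ s))
    congr 1
    change j s = j (t⁻¹ * ((φ s : Subgroup.centralizer (V : Set G)) : G) * t)
    rw [hφa]
    congr 1
    group
  · intro w hw h1 h2
    have h3 : ∀ v ∈ V, ∀ x, H75.cj t⁻¹ w (v * x * v⁻¹) = H75.cj t⁻¹ w x := by
      intro v hv x
      change w (t⁻¹⁻¹ * (v * x * v⁻¹) * t⁻¹) = w (t⁻¹⁻¹ * x * t⁻¹)
      have h4 := hw (t * v * t⁻¹) (by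
        have h5 := (norm_iff ht'.1 v).1 hv
        rw [inv_inv] at h5
        exact h5) (t * x * t⁻¹)
      rw [inv_inv, ← h4]
      congr 1
      group
    have h6 : mulF j (H75.cj t⁻¹ w) = H75.cj t⁻¹ w := by
      have h7 := congrArg (H75.cj t⁻¹) h1
      rw [cj_mulF, cj_inv_cj] at h7
      exact h7
    have h8 : mulF (H75.cj t⁻¹ w) j = H75.cj t⁻¹ w := by
      have h7 := congrArg (H75.cj t⁻¹) h2
      rw [cj_mulF, cj_inv_cj] at h7
      exact h7
    obtain ⟨n, hn, h9⟩ := hj.lo _ h3 h6 h8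
    refine ⟨n, hn, ?_⟩
    rw [pw_cj] at h9
    rcases h9 with h9 | h9
    · left
      have := congrArg (H75.cj t) h9
      rw [cj_cj_inv] at this
      exact this
    · right
      have := congrArg (H75.cj t) h9
      rw [cj_cj_inv] at this
      exact this

end Pool.Agent.PFC.H75
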