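import Pool.Agent.PFC.StmtsB6
import Pool.Agent.Helper20_PP.Rst
import Pool.Agent.Helper75_PP.Res

/-!
# Squad PFC, block B6: conjugation lemmas (helper75)
-/

open scoped BigOperators

noncomputable section

namespace Pool.Agent.PFC.H75

open Pool.Agent.Helper51_AWC Pool.Agent.Helper79_WRA Pool.Agent.PP Pool.Agent.PP.KF
open Pool.Agent.PP.K9 Pool.Agent.PP.K9.H97 Pool.Agent.PP.H75 Pool.Agent.PP.T3 Pool.Agent.PP.T2
open Pool.Agent.PP.T8 (Fr rs pw)

attribute [local instance] Ideal.Quotient.field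

section gen

variable {F G : Type} [Field F] [Group G] [Finite G]

omit [Finite G] in
/-- conjugation as an isomorphism between conjugate subgroups -/
def eX {X Y : Subgroup G} (g : G) (h : ∀ x, x ∈ Y ↔ g⁻¹ * x * g ∈ X) : Y ≃* X where
  toFun x := ⟨g⁻¹ * x * g, (h x).1 x.2⟩
  invFun x := ⟨g * x * g⁻¹, (h _).2 (by
    have e : g⁻¹ * (g * (x : G) * g⁻¹) * g = x := by group
    rw [e]
    exact x.2)⟩
  left_inv x := by
    apply Subtype.ext
    change g * (g⁻¹ * (x : G) * g) * g⁻¹ = x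
    group
  right_inv x := by
    apply Subtype.ext
    change g⁻¹ * (g * (x : G) * g⁻¹) * g = x
    group
  map_mul' x y := by
    apply Subtype.ext
    change g⁻¹ * ((x : G) * y) * g = g⁻¹ * (x : G) * g * (g⁻¹ * (y : G) * g)
    group

omit [Finite G] in
/-- the conjugate of a block of a subgroup -/
theorem Bx_cj {X Y : Subgroup G} {b : G → F} (h : Bx X b) (g : G)
    (hY : ∀ x, x ∈ Y ↔ g⁻¹ * x * g ∈ X) : Bx Y (H75.cj g b) where
  supp := fun x hx => h.supp _ fun hc => hx ((hY x).2 hc)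
  blk := H20.IsBlk_equiv (eX g hY) h.blk

omit [Finite G] in
/-- the centraliser of a conjugate subgroup -/
theorem mem_cent_conj {W W' : Subgroup G} (g : G) (h : ∀ x, x ∈ W ↔ g⁻¹ * x * g ∈ W') (x : G) :
    x ∈ Subgroup.centralizer (W : Set G) ↔
      g⁻¹ * x * g ∈ Subgroup.centralizer (W' : Set G) := by
  rw [Subgroup.mem_centralizer_iff, Subgroup.mem_centralizer_iff]
  constructor
  · intro hx w hw
    have h1 : g * w * g⁻¹ ∈ (W : Set G) := by
      refine (h _).2 ?_
      have e : g⁻¹ * (g * w * g⁻¹) * g = w := by group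
      rw [e]
      exact hw
    have h2 := hx _ h1
    calc w * (g⁻¹ * x * g) = g⁻¹ * ((g * w * g⁻¹) * x) * g := by group
      _ = g⁻¹ * (x * (g * w * g⁻¹)) * g := by rw [h2]
      _ = g⁻¹ * x * g * w := by group
  · intro hx w hw
    have h2 := hx _ ((h w).1 hw)
    calc w * x = g * ((g⁻¹ * w * g) * (g⁻¹ * x * g)) * g⁻¹ := by group
      _ = g * ((g⁻¹ * x * g) * (g⁻¹ * w * g)) * g⁻¹ := by rw [h2]
      _ = x * w := by group

/-- the Brauer map and conjugation -/
theorem br_cj {W W' : Subgroup G} (g : G) (h : ∀ x, x ∈ W ↔ g⁻¹ * x * g ∈ W') (a : G → F) :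
    br W (H75.cj g a) = H75.cj g (br W' a) := by
  funext x
  by_cases hx : x ∈ Subgroup.centralizer (W : Set G)
  · rw [H75.br_in _ hx]
    exact (H75.br_in _ ((mem_cent_conj g h x).1 hx)).symm
  · rw [H75.br_out _ hx]
    exact (H75.br_out _ fun hc => hx ((mem_cent_conj g h x).2 hc)).symm

omit [Finite G] in
theorem norm_iff {V : Subgroup G} {t : G} (ht : t ∈ Subgroup.normalizer (V : Set G)) (x : G) :
    x ∈ V ↔ t⁻¹ * x * t ∈ V := by
  have h := Subgroup.mem_normalizer_iff.1 ht (t⁻¹ * x * t)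
  rw [show t * (t⁻¹ * x * t) * t⁻¹ = x by group] at h
  exact h.symm

theorem cj_stabF {γ : G → F} {t : G} (ht : t ∈ stabF γ) : H75.cj t γ = γ :=
  (cj_eq_iff t γ).2 ht

theorem cj_stabF_inv {γ : G → F} {t : G} (ht : t ∈ stabF γ) : H75.cj t⁻¹ γ = γ :=
  cj_stabF ((stabF γ).inv_mem ht)

open Classical in
theorem pw_cj (g : G) (a : G → F) (n : ℕ) : pw (H75.cj g a) n = H75.cj g (pw a n) := by
  induction n with
  | zero =>
    funext x
    change (if x = 1 then (1 : F) else 0) = if g⁻¹ * x * g = 1 then 1 else 0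
    by_cases hx : x = 1
    · subst hx
      simp
    · rw [if_neg hx, if_neg]
      intro h
      apply hx
      have e : x = g * (g⁻¹ * x * g) * g⁻¹ := by group
      rw [e, h]
      group
  | succ n ih =>
    change mulF (H75.cj g a) (pw (H75.cj g a) n) = H75.cj g (mulF a (pw a n))
    rw [ih, cj_mulF]

end gen

section loc

variable {M : Ideal (integralClosure ℤ ℂ)}

theorem wC_equiv {A B : Type} [Group A] [Group B] [Fintype A] [Fintype B] (φ : A ≃* B)
    (a κ : B → ℂ) : wC (fun x => a (φ x)) (fun x => κ (φ x)) = wC a κ := by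
  unfold wC
  have h1 : (∑ t, a (φ t) * κ (φ t)) = ∑ t, a t * κ t :=
    Equiv.sum_comp φ.toEquiv (fun t => a t * κ t)
  change (∑ t, a (φ t) * κ (φ t)) / κ (φ 1) = _
  rw [h1, map_one]

theorem res_equiv {A B : Type} [Group A] [Finite A] [Group B] [Finite B] (φ : A ≃* B)
    {a : B → FF M} (ha : IsCl a) {κ : B → ℂ} (hκ : κ ∈ Irr B) :
    res M (fun x => a (φ x)) (fun x => κ (φ x)) = res M a κ := by
  have := Fintype.ofFinite A
  have := Fintype.ofFinite B
  have h1 := (res_eq_red hκ (A := fun g => lf M (a g))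
    (fun g h => by rw [ha g h]) (fun g => lf_integral _) a
    (fun g => red_lf _)).2
  have h2 := (res_eq_red (irr_comp_equiv φ hκ) (A := fun g => lf M (a (φ g)))
    (fun g h => by rw [map_mul, map_mul, map_inv, ha (φ g) (φ h)]) (fun g => lf_integral _)
    (fun x => a (φ x)) (fun g => red_lf _)).2
  rw [h1, h2, wC_equiv φ (fun g => lf M (a g)) κ]

theorem IrrE_equiv [M.IsMaximal] {A B : Type} [Group A] [Finite A] [Group B] [Finite B]
    (φ : A ≃* B) {a : B → FF M} (ha : IsCl a) {κ : B → ℂ} (hκ : κ ∈ IrrE M a) :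
    (fun x => κ (φ x)) ∈ IrrE M (fun x => a (φ x)) :=
  ⟨irr_comp_equiv φ hκ.1, by rw [res_equiv φ ha hκ.1]; exact hκ.2⟩

end loc

end Pool.Agent.PFC.H75
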