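import Pool.Agent.PFC.StmtsB5a

/-!
# Squad PFC, block B5a: row MUV (helper75)
-/

open scoped BigOperators TensorProduct

noncomputable section

namespace Pool.Agent.PFC.B5a.H75

theorem bi_apply {F V B : Type} [Field F] [CommGroup V] [Ring B] [Algebra F B] (β : V →* B)
    (u v : V) (x : B) : bi F β (u, v) x = β u * (x * β v⁻¹) := rfl

theorem muv : MuvStmt := by
  intro homz F V B _ _ _ _ _ β hps
  obtain ⟨Ω, _, _, b, c, ⟨hb, hc, hs⟩, hst⟩ := hps
  obtain ⟨Ω₀, hΩ, hsum⟩ := homz V Ω hst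
  set μ : B →ₗ[F] B := ∑ ω ∈ Ω₀, (c ω).smulRight (b ω) with hμ
  have hμa : ∀ x, μ x = ∑ ω ∈ Ω₀, c ω x • b ω := by
    intro x
    simp [hμ]
  refine ⟨μ, ?_, ?_⟩
  · intro g x
    rw [hμa, hμa, Finset.mul_sum, Finset.sum_mul]
    symm
    refine Finset.sum_nbij' (fun ω => ((g, g) : V × V) • ω) (fun ω => ((g⁻¹, g⁻¹) : V × V) • ω)
      (fun ω hω => hΩ g ω hω) (fun ω hω => hΩ g⁻¹ ω hω) ?_ ?_ ?_
    · intro ω _
      rw [smul_smul, Prod.mk_mul_mk, inv_mul_cancel]
      exact one_smul _ _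
    · intro ω _
      rw [smul_smul, Prod.mk_mul_mk, mul_inv_cancel]
      exact one_smul _ _
    · intro ω _
      have h1 : β g * x * β g⁻¹ = bi F β (g, g) x := by rw [bi_apply, mul_assoc]
      rw [h1, hc, hb, bi_apply, mul_smul_comm, smul_mul_assoc, mul_assoc]
  · intro x
    have h1 : ∀ (ω : Ω) (h : V), c (((1, h) : V × V) • ω) x = c ω (x * β h) := by
      intro ω h
      have h2 := hc ((1, h) : V × V) ω (x * β h)
      rw [bi_apply, map_one, one_mul, mul_assoc, ← map_mul, mul_inv_cancel, map_one,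
        mul_one] at h2
      exact h2
    have h3 : ∀ (ω : Ω) (h : V), b (((1, h) : V × V) • ω) = b ω * β h⁻¹ := by
      intro ω h
      rw [hb, bi_apply, map_one, one_mul]
    calc ∑ h, μ (x * β h⁻¹) * β h
        = ∑ h, ∑ ω ∈ Ω₀, c ω (x * β h⁻¹) • (b ω * β h) := by
          refine Finset.sum_congr rfl fun h _ => ?_
          rw [hμa, Finset.sum_mul]
          exact Finset.sum_congr rfl fun ω _ => smul_mul_assoc _ _ _
      _ = ∑ ω ∈ Ω₀, ∑ h, c ω (x * β h⁻¹) • (b ω * β h) := Finset.sum_comm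
      _ = ∑ ω ∈ Ω₀, ∑ h : V, c (((1, h) : V × V) • ω) x • b (((1, h) : V × V) • ω) := by
          refine Finset.sum_congr rfl fun ω _ => ?_
          rw [← Equiv.sum_comp (Equiv.inv V)]
          refine Finset.sum_congr rfl fun h _ => ?_
          rw [h1, h3, Equiv.inv_apply, inv_inv]
      _ = ∑ ω, c ω x • b ω := (hsum B fun ω => c ω x • b ω).symm
      _ = x := hs x

end Pool.Agent.PFC.B5a.H75
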